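import Pool.Agent.N549.CG.Main2
import Pool.Agent.N549.AB.Cor5
import Pool.Agent.N549.AB.Stm2

/-!
# Decorrelation of random binary codes (project HG, sixth round)
-/

set_option autoImplicit false

namespace Pool.Agent.N549.DC

open MeasureTheory Finset
open scoped ENNReal NNReal
open Pool.Agent.N549.CG
open Pool.Agent.N549.AB (Gas LocK LensK UpK UpK_of Nr pr PZ PM ac gcor Z1 Z2 PC uniform_cor S_CANX
  S_LENSC S_PAIRC)
open Pool.Agent.N27.CG.Cnt (lint two_ne two_top prob V_pos)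

theorem lensC (hL : S_LENSC) (n D : ℕ) (hD : D ≤ n) :
    LensK (unif n) (cF n D) ((2 : ℝ) ^ D * V (n - D) (D / 2) / V n D) ((V n D : ℝ) / 2 ^ n) := by
  classical
  intro u v huv
  have hV := V_pos n D
  have hV' : (0 : ℝ) < V n D := by exact_mod_cast hV
  have hd : D < hammingDist u v := by
    by_contra hcon
    unfold cF at huv
    rw [if_pos (not_lt.1 hcon)] at huv
    exact zero_ne_one huv
  have key := hL n D hD u v hd
  have hμ : ∀ S : Set (W n), unif n S = ((2 : ℝ≥0∞) ^ n)⁻¹ * #(univ.filter (· ∈ S)) := by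
    intro S
    have h1 : unif n S = ∫⁻ u, S.indicator 1 u ∂(unif n) := by
      rw [lintegral_indicator_one (Set.toFinite _).measurableSet]
    rw [h1, lint]
    congr 1
    simp only [Set.indicator_apply, Pi.one_apply]
    rw [Finset.sum_boole]
  have e3 : ENNReal.ofReal ((2 : ℝ) ^ D * V (n - D) (D / 2) / V n D * ((V n D : ℝ) / 2 ^ n)) =
      ((2 : ℝ≥0∞) ^ n)⁻¹ * ((2 ^ D * V (n - D) (D / 2) : ℕ) : ℝ≥0∞) := by
    have h3 : (2 : ℝ) ^ D * V (n - D) (D / 2) / V n D * ((V n D : ℝ) / 2 ^ n) =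
        (2 ^ n)⁻¹ * ((2 ^ D * V (n - D) (D / 2) : ℕ) : ℝ) := by
      push_cast
      field_simp
    rw [h3, ENNReal.ofReal_mul (by positivity), ENNReal.ofReal_natCast,
      ENNReal.ofReal_inv_of_pos (by positivity), ENNReal.ofReal_pow (by norm_num)]
    simp
  rw [hμ, e3]
  refine mul_le_mul_right ?_ _
  rw [Nat.cast_le]
  refine le_trans (card_le_card ?_) key
  intro y hy'
  have hy : y ∈ Nr (cF n D) u ∩ Nr (cF n D) v := by simpa using hy'
  rw [mem_filter]
  have h1 : ∀ w : W n, y ∈ Nr (cF n D) w → hammingDist w y ≤ D := by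
    intro w hw
    have h2 : cF n D w y = 0 := hw
    unfold cF at h2
    by_contra hcon
    rw [if_neg hcon] at h2
    exact one_ne_zero h2
  exact ⟨mem_univ _, h1 u hy.1, h1 v hy.2⟩

/-- the pair correlations -/
theorem PC_gcor (hP : S_PAIRC) (n D : ℕ) (z : ℝ) (hz : 0 < z) (u v : W n)
    (huv : D < hammingDist u v) :
    PC n D z u v * ZC n D z = gcor (unif n) (cF n D) (z * 2 ^ n) u v *
      (PC n D z u u * PC n D z v v) := by
  obtain ⟨h1, h2, -⟩ := hP n D z hz.le u v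
  obtain ⟨h3, -, -⟩ := hP n D z hz.le v v
  have h4 := h2 huv
  have hp := prob n
  have hF := (Pool.Agent.N27.CG.Cnt.cnt n D).2.1.adm
  have hl : 0 ≤ z * 2 ^ n := by positivity
  have a1 : 1 ≤ Z1 (unif n) (cF n D) (z * 2 ^ n) u := Pool.Agent.N549.AB.one_le_Z1 hF _ hl u
  have a2 : 1 ≤ Z1 (unif n) (cF n D) (z * 2 ^ n) v := Pool.Agent.N549.AB.one_le_Z1 hF _ hl v
  rw [← h1, ← h3, ← h4]
  unfold gcor
  have e : z * 2 ^ n / 2 ^ n = z := by field_simp
  rw [PZ_ZC, e]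
  have a3 : Z1 (unif n) (cF n D) (z * 2 ^ n) u ≠ 0 := (lt_of_lt_of_le one_pos a1).ne'
  have a4 : Z1 (unif n) (cF n D) (z * 2 ^ n) v ≠ 0 := (lt_of_lt_of_le one_pos a2).ne'
  field_simp

theorem mainD (hL : S_LENSC) (hP : S_PAIRC) (δ ε : ℝ) (hδ : 0 < δ) (hδ1 : δ < 1 / 2)
    (hε : 0 < ε) :
    ∃ (a η : ℝ) (n₀ : ℕ), 0 < a ∧ 0 < η ∧ ∀ n D : ℕ, n₀ ≤ n → Even D →
      |(D : ℝ) - δ * n| ≤ η * n →
      (∀ s : ℝ, 0 < s → s ≤ (XC δ - ε) * n → ∀ x y : W n, D < hammingDist x y →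
        (1 - Real.exp (-(a * n))) * (PC n D (s * Real.exp s / V n D) x x *
          PC n D (s * Real.exp s / V n D) y y) ≤
            PC n D (s * Real.exp s / V n D) x y * ZC n D (s * Real.exp s / V n D)) ∧
      (∀ s : ℝ, 0 < s → s ≤ (XC δ / 3 - ε) * n → ∀ x y : W n, D < hammingDist x y →
        PC n D (s * Real.exp s / V n D) x y * ZC n D (s * Real.exp s / V n D) ≤
        (1 + Real.exp (-(a * n))) * (PC n D (s * Real.exp s / V n D) x x *
          PC n D (s * Real.exp s / V n D) y y)) := by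
  obtain ⟨η₁, hη₁, n₁, hasy⟩ := Pool.Agent.N426.CG.asy δ (ε / 4) hδ hδ1 (by positivity)
  obtain ⟨a, N₀, ha, huni⟩ := uniform_cor (XC δ) ε hε
  obtain ⟨n₃, hn₃⟩ := exists_nat_ge (max N₀ (2 / δ))
  set η : ℝ := min η₁ (min (δ / 2) ((1 / 2 - δ) / 2)) with hη
  have hη0 : 0 < η := by
    rw [hη]
    have : 0 < (1 / 2 - δ) / 2 := by linarith
    positivity
  refine ⟨a, η, max n₁ n₃, ha, hη0, fun n D hn hEven hDn => ?_⟩
  have g1 : n₁ ≤ n := (le_max_left _ _).trans hn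
  have g3 : n₃ ≤ n := (le_max_right _ _).trans hn
  have hn3 : max N₀ (2 / δ) ≤ (n : ℝ) := hn₃.trans (by exact_mod_cast g3)
  have r0 : N₀ ≤ n := (le_max_left _ _).trans hn3
  have r3 : 2 / δ ≤ n := (le_max_right _ _).trans hn3
  have hn0 : (0 : ℝ) < n := lt_of_lt_of_le (by positivity) r3
  have d1 : |(D : ℝ) - δ * n| ≤ η₁ * n :=
    hDn.trans (mul_le_mul_of_nonneg_right (min_le_left _ _) hn0.le)
  have d3 : |(D : ℝ) - δ * n| ≤ δ / 2 * n :=
    hDn.trans (mul_le_mul_of_nonneg_right ((min_le_right _ _).trans (min_le_left _ _)) hn0.le)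
  have d4 : |(D : ℝ) - δ * n| ≤ (1 / 2 - δ) / 2 * n :=
    hDn.trans (mul_le_mul_of_nonneg_right ((min_le_right _ _).trans (min_le_right _ _)) hn0.le)
  rw [abs_le] at d3 d4
  rw [div_le_iff₀ hδ] at r3
  have hD1 : 1 ≤ D := by
    have : (1 : ℝ) ≤ D := by nlinarith [d3.1]
    exact_mod_cast this
  have hDn2 : 2 * D < n := by
    have : 2 * (D : ℝ) < n := by nlinarith [d4.2]
    exact_mod_cast this
  obtain ⟨⟨y₀, hy1, hy2, hy3⟩, hloc3, -⟩ := hasy n D g1 d1
  obtain ⟨hprob, hG, hpr⟩ := Pool.Agent.N27.CG.Cnt.cnt n D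
  have hV : (0 : ℝ) < V n D := by exact_mod_cast V_pos n D
  set κ : ℝ := Real.sqrt (2 ^ (n - 1) * ((n - 1).choose D) / ((n - 1).choose y₀)) / V n D with hκd
  have hκ0 : 0 ≤ κ := by rw [hκd]; positivity
  have hsup := supC n D κ hκ0 (fun x hx1 hx2 => by
    have := Pool.Agent.N835.CG.kr n D y₀ hEven hD1 hDn2 hy1 hy2 x hx1 hx2
    refine le_trans (le_of_eq ?_) this
    rw [hκd]
    field_simp)
  have hloc := locC n D (by omega)
  have hlens := lensC hL n D (by omega)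
  have hδ0 : 0 ≤ (2 : ℝ) ^ (D + 1) * V (n - D) (D / 2) / V n D := by positivity
  have hl0 : 0 ≤ (2 : ℝ) ^ D * V (n - D) (D / 2) / V n D := by positivity
  have hX1 : XC δ ≤ XM δ := min_le_left _ _
  have hX2 : XC δ ≤ XV δ := min_le_right _ _
  have hκM : κ ≤ Real.exp (-((XM δ - ε / 4) * n)) := by
    refine hy3.trans (le_of_eq ?_)
    congr 1
    unfold XM
    ring
  have hκ : κ ≤ Real.exp (-((XC δ - ε / 4) * n)) := by
    refine hκM.trans ?_
    rw [Real.exp_le_exp]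
    have := mul_le_mul_of_nonneg_right (sub_le_sub_right hX1 (ε / 4)) hn0.le
    linarith
  have hδ : (2 : ℝ) ^ (D + 1) * V (n - D) (D / 2) / V n D ≤
      Real.exp (-((XC δ - ε / 4) * n)) := by
    have e : Real.exp (-(h δ - δ * Real.log 2 - (1 - δ) * h (δ / (2 * (1 - δ))) - ε / 4) * n) =
        Real.exp (-((XV δ - ε / 4) * n)) := by
      congr 1
      unfold XV
      ring
    rw [e] at hloc3
    refine hloc3.trans ?_
    rw [Real.exp_le_exp]
    have := mul_le_mul_of_nonneg_right (sub_le_sub_right hX2 (ε / 4)) hn0.le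
    linarith
  have hle : (2 : ℝ) ^ D * V (n - D) (D / 2) / V n D ≤ Real.exp (-((XC δ - ε / 4) * n)) := by
    refine le_trans ?_ hδ
    apply div_le_div_of_nonneg_right _ hV.le
    apply mul_le_mul_of_nonneg_right _ (by positivity)
    exact pow_le_pow_right₀ (by norm_num) (Nat.le_succ D)
  obtain ⟨u1, u2⟩ := huni (W n) (unif n) (cF n D) ((V n D : ℝ) / 2 ^ n) κ _ _ n r0 hG hκ0
    (UpK_of hG hκ0 hsup) hδ0 hloc hl0 hlens hκ hδ hle
  have hac : ∀ s : ℝ, ac ((V n D : ℝ) / 2 ^ n) s = s * Real.exp s / V n D * 2 ^ n := by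
    intro s
    unfold ac
    field_simp
  have hPC : ∀ (z : ℝ) (x y : W n), 0 ≤ z → 0 ≤ PC n D z x y := by
    intro z x y hz
    unfold PC
    exact Finset.sum_nonneg fun C _ => by positivity
  refine ⟨fun s hs hsN x y hxy => ?_, fun s hs hsN x y hxy => ?_⟩
  · have hz : 0 < s * Real.exp s / V n D := by positivity
    rw [PC_gcor hP n D _ hz x y hxy, ← hac]
    exact mul_le_mul_of_nonneg_right (u1 s hs hsN x y)
      (mul_nonneg (hPC _ _ _ hz.le) (hPC _ _ _ hz.le))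
  · have hz : 0 < s * Real.exp s / V n D := by positivity
    rw [PC_gcor hP n D _ hz x y hxy, ← hac]
    exact mul_le_mul_of_nonneg_right
      (u2 s hs hsN x y (by unfold cF; rw [if_neg (not_le.2 hxy)]))
      (mul_nonneg (hPC _ _ _ hz.le) (hPC _ _ _ hz.le))

end Pool.Agent.N549.DC
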