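import Pool.Agent.N549.DC.Cube
import Pool.Agent.N549.AB.Cor8

/-!
# The distance distribution of random binary codes (project HG, sixth round)
-/

set_option autoImplicit false

namespace Pool.Agent.N549.DC

open MeasureTheory Finset
open scoped ENNReal NNReal
open Pool.Agent.N549.CG
open Pool.Agent.N549.AB (Gas LocK LensK UpK UpK_of Nr pr PZ PM PP PP_eq ac gcor Z1 Z2 PC uniform_tv
  S_CANX S_LENSC S_PAIRC S_VAR S_MOM2)
open Pool.Agent.N27.CG.Cnt (lint two_ne two_top prob V_pos)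

theorem real_unif (n : ℕ) (x : W n) : (unif n).real {x} = 1 / 2 ^ n := by
  unfold unif
  rw [measureReal_def, Measure.smul_apply, Measure.count_singleton, smul_eq_mul, mul_one]
  simp

theorem real_prod (n : ℕ) (p : W n × W n) : ((unif n).prod (unif n)).real {p} = 1 / 4 ^ n := by
  have hp := prob n
  have h1 : ({p} : Set (W n × W n)) = {p.1} ×ˢ {p.2} := by
    rw [Set.singleton_prod_singleton]
  rw [h1, measureReal_prod_prod, real_unif, real_unif]
  rw [show (4 : ℝ) = 2 * 2 by norm_num, mul_pow]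
  field_simp

theorem int_prod (n : ℕ) (B : Finset (W n × W n)) (f : W n × W n → ℝ) :
    ∫ p in (B : Set (W n × W n)), f p ∂((unif n).prod (unif n)) = (∑ p ∈ B, f p) / 4 ^ n := by
  have hp := prob n
  rw [← integral_indicator (Set.toFinite _).measurableSet, integral_fintype
    (Integrable.of_finite), Finset.sum_div]
  simp only [real_prod, smul_eq_mul]
  rw [← Finset.sum_subset (Finset.subset_univ B)]
  · refine Finset.sum_congr rfl fun p hp => ?_
    rw [Set.indicator_of_mem (Finset.mem_coe.2 hp)]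
    ring
  · intro p _ hp
    rw [Set.indicator_of_notMem (fun h => hp (Finset.mem_coe.1 h)), mul_zero]

theorem real_B (n : ℕ) (B : Finset (W n × W n)) :
    ((unif n).prod (unif n)).real (B : Set (W n × W n)) = #B / 4 ^ n := by
  have hp := prob n
  have h := int_prod n B (fun _ => 1)
  rw [setIntegral_const, smul_eq_mul, mul_one] at h
  rw [h]
  simp

/-- the number of pairs of the codes in a set -/
theorem PP_cube (hM : S_MOM2) (hP : S_PAIRC) (n D : ℕ) (z : ℝ) (hz : 0 ≤ z)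
    (B : Finset (W n × W n)) (hB : ∀ p ∈ B, D < hammingDist p.1 p.2) :
    PP (unif n) (cF n D) (z * 2 ^ n) (B : Set (W n × W n)) = ∑ p ∈ B, PC n D z p.1 p.2 := by
  have hp := prob n
  have hG := (Pool.Agent.N27.CG.Cnt.cnt n D).2.1
  rw [PP_eq hM hG (z * 2 ^ n) (by positivity) _ (Set.toFinite _).measurableSet (fun p hp => by
    unfold cF
    rw [if_neg (not_le.2 (hB p (Finset.mem_coe.1 hp)))]), int_prod, mul_div_assoc', Finset.mul_sum,
    Finset.sum_div]
  refine Finset.sum_congr rfl fun p hp => ?_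
  obtain ⟨-, h2, -⟩ := hP n D z hz p.1 p.2
  have e4 : (4 : ℝ) ^ n = 2 ^ n * 2 ^ n := by rw [← mul_pow]; norm_num
  rw [← h2 (hB p hp), e4]
  field_simp

/-- **The pair distribution in the cube.** -/
theorem tvC (hX : S_CANX) (hVar : S_VAR) (hM : S_MOM2) (hL : S_LENSC) (hP : S_PAIRC) (δ ε : ℝ)
    (hδ : 0 < δ) (hδ1 : δ < 1 / 2) (hε : 0 < ε) :
    ∃ (a η : ℝ) (n₀ : ℕ), 0 < a ∧ 0 < η ∧ ∀ n D : ℕ, n₀ ≤ n → Even D →
      |(D : ℝ) - δ * n| ≤ η * n →
      ∀ s : ℝ, Real.exp (-(a * n)) ≤ s → s ≤ (XC δ - ε) * n →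
      ∀ B : Finset (W n × W n), (∀ p ∈ B, D < hammingDist p.1 p.2) →
        |(∑ p ∈ B, PC n D (s * Real.exp s / V n D) p.1 p.2) / ZC n D (s * Real.exp s / V n D) -
          NC n D (s * Real.exp s / V n D) ^ 2 * (#B / 4 ^ n)| ≤
          Real.exp (-(a * n)) * NC n D (s * Real.exp s / V n D) ^ 2 := by
  obtain ⟨η₁, hη₁, n₁, hasy⟩ := Pool.Agent.N426.CG.asy δ (ε / 8) hδ hδ1 (by positivity)
  -- the volume is small
  have hent : 0 < Real.log 2 - h δ := by
    have : Real.binEntropy δ < Real.log 2 := by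
      rw [Real.binEntropy_lt_log_two]
      exact fun h' => by rw [h'] at hδ1; norm_num at hδ1
    unfold h
    linarith
  set e₂ : ℝ := (Real.log 2 - h δ) / 2 with he₂
  have he₂0 : 0 < e₂ := by rw [he₂]; linarith
  obtain ⟨η₂, hη₂, n₂, hasy2⟩ := Pool.Agent.N426.CG.asy δ e₂ hδ hδ1 he₂0
  obtain ⟨a, N₀, ha, huni⟩ := uniform_tv hX hVar hM (XC δ) ε e₂ hε he₂0
  obtain ⟨n₃, hn₃⟩ := exists_nat_ge (max N₀ (2 / δ))
  set η : ℝ := min (min η₁ η₂) (min (δ / 2) ((1 / 2 - δ) / 2)) with hη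
  have hη0 : 0 < η := by
    rw [hη]
    have : 0 < (1 / 2 - δ) / 2 := by linarith
    positivity
  refine ⟨a, η, max (max n₁ n₂) n₃, ha, hη0, fun n D hn hEven hDn s hs hsN B hB => ?_⟩
  have g1 : n₁ ≤ n := ((le_max_left _ _).trans (le_max_left _ _)).trans hn
  have g2 : n₂ ≤ n := ((le_max_right _ _).trans (le_max_left _ _)).trans hn
  have g3 : n₃ ≤ n := (le_max_right _ _).trans hn
  have hn3 : max N₀ (2 / δ) ≤ (n : ℝ) := hn₃.trans (by exact_mod_cast g3)
  have r0 : N₀ ≤ n := (le_max_left _ _).trans hn3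
  have r3 : 2 / δ ≤ n := (le_max_right _ _).trans hn3
  have hn0 : (0 : ℝ) < n := lt_of_lt_of_le (by positivity) r3
  have d1 : |(D : ℝ) - δ * n| ≤ η₁ * n :=
    hDn.trans (mul_le_mul_of_nonneg_right ((min_le_left _ _).trans (min_le_left _ _)) hn0.le)
  have d2 : |(D : ℝ) - δ * n| ≤ η₂ * n :=
    hDn.trans (mul_le_mul_of_nonneg_right ((min_le_left _ _).trans (min_le_right _ _)) hn0.le)
  have d3 : |(D : ℝ) - δ * n| ≤ δ / 2 * n :=
    hDn.trans (mul_le_mul_of_nonneg_right ((min_le_right _ _).trans (min_le_left _ _)) hn0.le)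
  have d4 : |(D : ℝ) - δ * n| ≤ (1 / 2 - δ) / 2 * n :=
    hDn.trans (mul_le_mul_of_nonneg_right ((min_le_right _ _).trans (min_le_right _ _)) hn0.le)
  rw [abs_le] at d3 d4
  rw [div_le_iff₀ hδ] at r3
  have hD1 : 1 ≤ D := by
    have : (1 : ℝ) ≤ D := by nlinarith [d3.1]
    exact_mod_cast this
  have hDn2 : 2 * D < n := by
    have : 2 * (D : ℝ) < n := by nlinarith [d4.2]
    exact_mod_cast this
  obtain ⟨⟨y₀, hy1, hy2, hy3⟩, hloc3, -⟩ := hasy n D g1 d1
  obtain ⟨-, -, hvol⟩ := hasy2 n D g2 d2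
  obtain ⟨hprob, hG, hpr⟩ := Pool.Agent.N27.CG.Cnt.cnt n D
  have hsm : (V n D : ℝ) / 2 ^ n ≤ Real.exp (-(e₂ * n)) := by
    refine hvol.trans (le_of_eq ?_)
    congr 1
    rw [he₂]; ring
  have hV : (0 : ℝ) < V n D := by exact_mod_cast V_pos n D
  set κ : ℝ := Real.sqrt (2 ^ (n - 1) * ((n - 1).choose D) / ((n - 1).choose y₀)) / V n D with hκd
  have hκ0 : 0 ≤ κ := by rw [hκd]; positivity
  have hsup := supC n D κ hκ0 (fun x hx1 hx2 => by
    have := Pool.Agent.N835.CG.kr n D y₀ hEven hD1 hDn2 hy1 hy2 x hx1 hx2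
    refine le_trans (le_of_eq ?_) this
    rw [hκd]
    field_simp)
  have hloc := locC n D (by omega)
  have hlens := lensC hL n D (by omega)
  have hδ0 : 0 ≤ (2 : ℝ) ^ (D + 1) * V (n - D) (D / 2) / V n D := by positivity
  have hl0 : 0 ≤ (2 : ℝ) ^ D * V (n - D) (D / 2) / V n D := by positivity
  have hX1 : XC δ ≤ XM δ := min_le_left _ _
  have hX2 : XC δ ≤ XV δ := min_le_right _ _
  have hκM : κ ≤ Real.exp (-((XM δ - ε / 8) * n)) := by
    refine hy3.trans (le_of_eq ?_)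
    congr 1
    unfold XM
    ring
  have hκ : κ ≤ Real.exp (-((XC δ - ε / 8) * n)) := by
    refine hκM.trans ?_
    rw [Real.exp_le_exp]
    have := mul_le_mul_of_nonneg_right (sub_le_sub_right hX1 (ε / 8)) hn0.le
    linarith
  have hδ : (2 : ℝ) ^ (D + 1) * V (n - D) (D / 2) / V n D ≤
      Real.exp (-((XC δ - ε / 8) * n)) := by
    have e : Real.exp (-(h δ - δ * Real.log 2 - (1 - δ) * h (δ / (2 * (1 - δ))) - ε / 8) * n) =
        Real.exp (-((XV δ - ε / 8) * n)) := by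
      congr 1
      unfold XV
      ring
    rw [e] at hloc3
    refine hloc3.trans ?_
    rw [Real.exp_le_exp]
    have := mul_le_mul_of_nonneg_right (sub_le_sub_right hX2 (ε / 8)) hn0.le
    linarith
  have hle : (2 : ℝ) ^ D * V (n - D) (D / 2) / V n D ≤ Real.exp (-((XC δ - ε / 8) * n)) := by
    refine le_trans ?_ hδ
    apply div_le_div_of_nonneg_right _ hV.le
    apply mul_le_mul_of_nonneg_right _ (by positivity)
    exact pow_le_pow_right₀ (by norm_num) (Nat.le_succ D)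
  have key := huni (W n) (unif n) (cF n D) ((V n D : ℝ) / 2 ^ n) κ _ _ n r0 hG hsm hκ0
    (UpK_of hG hκ0 hsup) hδ0 hloc hl0 hlens hκ hδ hle s hs hsN (B : Set (W n × W n))
    (Set.toFinite _).measurableSet (fun p hp => by
      unfold cF
      rw [if_neg (not_le.2 (hB p (Finset.mem_coe.1 hp)))])
  have hs0 : 0 < s := lt_of_lt_of_le (Real.exp_pos _) hs
  have hac : ac ((V n D : ℝ) / 2 ^ n) s = s * Real.exp s / V n D * 2 ^ n := by
    unfold ac
    field_simp
  have e2 : s * Real.exp s / V n D * 2 ^ n / 2 ^ n = s * Real.exp s / V n D := by field_simp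
  rw [hac, PM_NC, PZ_ZC, e2, real_B, PP_cube hM hP n D _ (by positivity) B hB] at key
  exact key

end Pool.Agent.N549.DC
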