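import Pool.Agent.N549.DC.Cube2

/-!
# Random binary codes at large activities (project HG, sixth round)
-/

set_option autoImplicit false

namespace Pool.Agent.N549.DC

open MeasureTheory Finset
open scoped ENNReal NNReal
open Pool.Agent.N549.CG
open Pool.Agent.N549.AB (Gas LocK LensK UpK UpK_of Nr pr PZ PM PZ_ge_one ac ac_pos conv_ac)
open Pool.Agent.N27.CG.Cnt (lint two_ne two_top prob V_pos)

/-- the density at arbitrary activities, from the upper bound for the pressure -/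
theorem dens_gen {Ω : Type} [MeasurableSpace Ω] {μ : Measure Ω} [IsProbabilityMeasure μ]
    {F : Ω → Ω → ℝ≥0∞} {D κ : ℝ} (hG : Gas μ F D) (hκ : 0 ≤ κ) (hU : UpK μ F D κ) (s : ℝ)
    (hs : 0 < s) : D * PM μ F (ac D s) ≤ (s + 2) ^ 2 / 2 + 3 * κ * (s + 1) * Real.exp s := by
  have hD := hG.pos
  have c1 := conv_ac (μ := μ) hG s (s + 1) hs (by linarith)
  have h1 := hU (s + 1) (by linarith)
  have h0 : 0 ≤ D * Real.log (PZ μ F (ac D s)) :=
    mul_nonneg hD.le (Real.log_nonneg (PZ_ge_one hG.adm _ (ac_pos hD hs).le))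
  have h2 : 0 ≤ PM μ F (ac D s) := by
    unfold PM
    refine div_nonneg (tsum_nonneg fun k => ?_)
      (zero_le_one.trans (PZ_ge_one hG.adm _ (ac_pos hD hs).le))
    have := ac_pos hD hs
    exact mul_nonneg (by positivity) (mul_nonneg (by positivity)
      (Pool.Agent.N549.AB.pr_nonneg k))
  have h3 : 0 ≤ Real.log ((s + 1) / s) := Real.log_nonneg (by
    rw [le_div_iff₀ hs]; linarith)
  have h4 : 0 ≤ D * PM μ F (ac D s) := mul_nonneg hD.le h2
  have h5 : D * PM μ F (ac D s) ≤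
      (Real.log ((s + 1) / s) + (s + 1 - s)) * (D * PM μ F (ac D s)) := by
    nlinarith [mul_nonneg h3 h4]
  have h6 : κ * ((s + 1) * Real.exp (s + 1)) ≤ 3 * κ * (s + 1) * Real.exp s := by
    have h7 : Real.exp (s + 1) ≤ 3 * Real.exp s := by
      rw [Real.exp_add, mul_comm]
      have := Real.exp_one_lt_d9
      exact mul_le_mul_of_nonneg_right (by linarith) (Real.exp_pos s).le
    calc κ * ((s + 1) * Real.exp (s + 1)) ≤ κ * ((s + 1) * (3 * Real.exp s)) := by gcongr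
      _ = _ := by ring
  nlinarith

/-- **Upper bound for the mean size at every activity.** -/
theorem upC (δ ε : ℝ) (hδ : 0 < δ) (hδ1 : δ < 1 / 2) (hε : 0 < ε) :
    ∃ (η : ℝ) (n₀ : ℕ), 0 < η ∧ ∀ n D : ℕ, n₀ ≤ n → Even D →
      |(D : ℝ) - δ * n| ≤ η * n → ∀ s : ℝ, 0 < s →
        (V n D : ℝ) / 2 ^ n * NC n D (s * Real.exp s / V n D) ≤
          (s + 2) ^ 2 / 2 + 3 * (s + 1) * Real.exp (s - (XM δ - ε) * n) := by
  obtain ⟨η₁, hη₁, n₁, hasy⟩ := Pool.Agent.N426.CG.asy δ ε hδ hδ1 hε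
  obtain ⟨n₃, hn₃⟩ := exists_nat_ge (2 / δ)
  set η : ℝ := min η₁ (min (δ / 2) ((1 / 2 - δ) / 2)) with hη
  have hη0 : 0 < η := by
    rw [hη]
    have : 0 < (1 / 2 - δ) / 2 := by linarith
    positivity
  refine ⟨η, max n₁ n₃, hη0, fun n D hn hEven hDn s hs => ?_⟩
  have g1 : n₁ ≤ n := (le_max_left _ _).trans hn
  have g3 : n₃ ≤ n := (le_max_right _ _).trans hn
  have r3 : 2 / δ ≤ n := hn₃.trans (by exact_mod_cast g3)
  have hn0 : (0 : ℝ) < n := lt_of_lt_of_le (by positivity) r3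
  have d1 : |(D : ℝ) - δ * n| ≤ η₁ * n :=
    hDn.trans (mul_le_mul_of_nonneg_right (min_le_left _ _) hn0.le)
  have d3 : |(D : ℝ) - δ * n| ≤ δ / 2 * n :=
    hDn.trans (mul_le_mul_of_nonneg_right ((min_le_right _ _).trans (min_le_left _ _)) hn0.le)
  have d4 : |(D : ℝ) - δ * n| ≤ (1 / 2 - δ) / 2 * n :=
    hDn.trans (mul_le_mul_of_nonneg_right ((min_le_right _ _).trans (min_le_right _ _)) hn0.le)
  rw [abs_le] at d3 d4
  rw [div_le_iff₀ hδ] at r3
  have hD1 : 1 ≤ D := by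
    have : (1 : ℝ) ≤ D := by nlinarith [d3.1]
    exact_mod_cast this
  have hDn2 : 2 * D < n := by
    have : 2 * (D : ℝ) < n := by nlinarith [d4.2]
    exact_mod_cast this
  obtain ⟨⟨y₀, hy1, hy2, hy3⟩, hloc3, -⟩ := hasy n D g1 d1
  obtain ⟨hprob, hG, hpr⟩ := Pool.Agent.N27.CG.Cnt.cnt n D
  have hV : (0 : ℝ) < V n D := by exact_mod_cast V_pos n D
  set κ : ℝ := Real.sqrt (2 ^ (n - 1) * ((n - 1).choose D) / ((n - 1).choose y₀)) / V n D with hκd
  have hκ0 : 0 ≤ κ := by rw [hκd]; positivity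
  have hsup := supC n D κ hκ0 (fun x hx1 hx2 => by
    have := Pool.Agent.N835.CG.kr n D y₀ hEven hD1 hDn2 hy1 hy2 x hx1 hx2
    refine le_trans (le_of_eq ?_) this
    rw [hκd]
    field_simp)
  have hκM : κ ≤ Real.exp (-((XM δ - ε) * n)) := by
    refine hy3.trans (le_of_eq ?_)
    congr 1
    unfold XM
    ring
  have key := dens_gen hG hκ0 (UpK_of hG hκ0 hsup) s hs
  have hac : ac ((V n D : ℝ) / 2 ^ n) s = s * Real.exp s / V n D * 2 ^ n := by
    unfold ac
    field_simp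
  have e2 : s * Real.exp s / V n D * 2 ^ n / 2 ^ n = s * Real.exp s / V n D := by field_simp
  rw [hac, PM_NC, e2] at key
  refine key.trans ?_
  have h1 : 3 * κ * (s + 1) * Real.exp s ≤
      3 * Real.exp (-((XM δ - ε) * n)) * (s + 1) * Real.exp s := by gcongr
  have h2 : 3 * Real.exp (-((XM δ - ε) * n)) * (s + 1) * Real.exp s =
      3 * (s + 1) * Real.exp (s - (XM δ - ε) * n) := by
    have e3 : Real.exp (s - (XM δ - ε) * n) =
        Real.exp (-((XM δ - ε) * n)) * Real.exp s := by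
      rw [← Real.exp_add]
      congr 1
      ring
    rw [e3]
    ring
  linarith

end Pool.Agent.N549.DC
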