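import Pool.Agent.N549.SG.Main3
import Pool.Agent.N549.AB.Cor5
import Pool.Agent.N549.AB.Stm2

/-!
# Decorrelation of random spherical codes (project HG, sixth round)
-/

set_option autoImplicit false

namespace Pool.Agent.N549.DC

open MeasureTheory Set Finset
open scoped ENNReal NNReal
open Pool.Agent.N303.SH (E S sg)
open Pool.Agent.N549.SG
open Pool.Agent.N549.AB (Gas LocK LensK UpK UpK_of Nr pr PZ PM ac gcor uniform_cor S_LENSS)

theorem lensS (hL : S_LENSS) (c : ℕ) (t : ℝ) (ht : 0 < t) (ht1 : t < 1)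
    (hpos : 0 < capVol c t) :
    LensK (sig (c + 2)) (capF (c + 2) t)
      (capVol c (t / Real.sqrt ((1 + t) / 2)) / capVol c t) (capVol c t) := by
  intro u v huv
  have h : inner ℝ (u : E (c + 2)) (v : E (c + 2)) ≤ t := by
    by_contra hcon
    unfold capF at huv
    rw [if_pos (not_le.1 hcon)] at huv
    exact zero_ne_one huv
  rw [Nr_capF, Nr_capF, div_mul_cancel₀ _ hpos.ne']
  exact hL c t ht ht1 u v h

/-- **Decorrelation on the sphere.** -/
theorem mainS (hRec : S_REC) (hC : S_CAPR) (hLo : S_LOCS) (hR : S_ROT)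
    (hB : S_BES) (hV : S_LOWV) (hE : S_ENT) (hS : S_SPEC) (hLe : S_LENSS)
    (t ε : ℝ) (ht : 0 < t) (ht1 : t < 1) (hε : 0 < ε) : ∃ (a : ℝ) (c₀ : ℕ), 0 < a ∧
    ∀ c : ℕ, c₀ ≤ c →
    (∀ s : ℝ, 0 < s → s ≤ (XS t - ε) * ((c : ℝ) + 2) → ∀ u v : S (c + 2),
      1 - Real.exp (-(a * ((c : ℝ) + 2))) ≤
        gcor (sig (c + 2)) (capF (c + 2) t) (ac (capVol c t) s) u v) ∧
    (∀ s : ℝ, 0 < s → s ≤ (XS t / 3 - ε) * ((c : ℝ) + 2) → ∀ u v : S (c + 2),
      inner ℝ (u : E (c + 2)) (v : E (c + 2)) ≤ t →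
      gcor (sig (c + 2)) (capF (c + 2) t) (ac (capVol c t) s) u v ≤
        1 + Real.exp (-(a * ((c : ℝ) + 2)))) := by
  obtain ⟨a, N₀, ha, huni⟩ := uniform_cor (XS t) ε hε
  obtain ⟨b1, b2, b3⟩ := tp_bounds t ht ht1
  have hsq : 0 < Real.sqrt (1 - t ^ 2) := Real.sqrt_pos.2 (by nlinarith)
  obtain ⟨c₃, hc₃⟩ := kap2_small hE hV t (ε / 4) ht ht1 (by positivity)
  obtain ⟨N₂, hN₂, hd2⟩ := Pool.Agent.N549.AB.decay 0 (ε / 4)
    (t * tp t / (2 * Real.exp (X2 t))) (by positivity) (by positivity)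
  simp only [abs_zero, zero_mul, add_zero, one_mul] at hd2
  obtain ⟨c₂, hc₂⟩ := exists_nat_ge (max N₀ N₂)
  refine ⟨a, max c₂ (max c₃ 1), ha, fun c hc => ?_⟩
  have hcc₂ : c₂ ≤ c := (le_max_left _ _).trans hc
  have hcc₃ : c₃ ≤ c := ((le_max_left _ _).trans (le_max_right _ _)).trans hc
  have hc1 : 1 ≤ c := ((le_max_right _ _).trans (le_max_right _ _)).trans hc
  have hcN : max N₀ N₂ ≤ (c : ℝ) + 2 := by
    have : (c₂ : ℝ) ≤ c := by exact_mod_cast hcc₂
    linarith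
  have hprob : IsProbabilityMeasure (sig (c + 2)) := (hR c).2.1
  obtain ⟨hpos, -⟩ := hC c t t ht le_rfl ht1
  obtain ⟨-, hrat⟩ := hC c t (tp t) ht b1 b2
  have hG := gasS hR c t hpos
  have hκ0 : 0 ≤ kap2 c t := by
    have := Cc_pos c t hc1
    unfold kap2; positivity
  have hsup := supS hS c t (kap2 c t) hc1 ht ht1 hκ0
    (fun k hk => capL_low2 hRec hB c t hc1 ht ht1 hpos k hk)
  have hloc := locS hLo c t ht ht1 hpos
  have hcap' : 0 ≤ capVol c (t / Real.sqrt ((1 + t) / 2)) := measureReal_nonneg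
  have hδ0 : 0 ≤ 2 * capVol c (t / Real.sqrt ((1 + t) / 2)) / capVol c t := by positivity
  have hX1 : XS t ≤ XK t := min_le_left _ _
  have hX2 : XS t ≤ X2 t := min_le_right _ _
  have hn0 : (0 : ℝ) ≤ (c : ℝ) + 2 := by positivity
  have hκK : kap2 c t ≤ Real.exp (-((XK t - ε / 4) * ((c : ℝ) + 2))) := hc₃ c hcc₃
  have hκ : kap2 c t ≤ Real.exp (-((XS t - ε / 4) * ((c : ℝ) + 2))) := by
    refine hκK.trans ?_
    rw [Real.exp_le_exp]
    have := mul_le_mul_of_nonneg_right (sub_le_sub_right hX1 (ε / 4)) hn0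
    linarith
  have hδ : 2 * capVol c (t / Real.sqrt ((1 + t) / 2)) / capVol c t ≤
      Real.exp (-((XS t - ε / 4) * ((c : ℝ) + 2))) := by
    have h1 := hd2 ((c : ℝ) + 2) ((le_max_right _ _).trans hcN)
    rw [sqrt_ratio t ht ht1] at hrat
    have h2 : 2 * capVol c (t / Real.sqrt ((1 + t) / 2)) / capVol c t ≤
        2 * (Real.exp (-X2 t) ^ (c + 1) / (t * tp t)) := by
      rw [div_le_iff₀ hpos]
      calc 2 * capVol c (t / Real.sqrt ((1 + t) / 2)) ≤
            2 * (Real.exp (-X2 t) ^ (c + 1) / (t * tp t) * capVol c t) :=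
            mul_le_mul_of_nonneg_left hrat (by norm_num)
        _ = _ := by ring
    refine h2.trans ?_
    have h3 : 2 * (Real.exp (-X2 t) ^ (c + 1) / (t * tp t)) =
        2 * Real.exp (X2 t) / (t * tp t) * Real.exp (-(ε / 4 * ((c : ℝ) + 2))) *
        Real.exp (-((X2 t - ε / 4) * ((c : ℝ) + 2))) := by
      have e1 : Real.exp (-X2 t) ^ (c + 1) = Real.exp (X2 t) *
          (Real.exp (-(ε / 4 * ((c : ℝ) + 2))) *
            Real.exp (-((X2 t - ε / 4) * ((c : ℝ) + 2)))) := by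
        rw [← Real.exp_nat_mul, ← Real.exp_add, ← Real.exp_add]
        congr 1
        push_cast
        ring
      rw [e1]
      field_simp
    rw [h3]
    have h4 : 2 * Real.exp (X2 t) / (t * tp t) * Real.exp (-(ε / 4 * ((c : ℝ) + 2))) ≤ 1 := by
      rw [le_div_iff₀ (by positivity)] at h1
      rw [div_mul_eq_mul_div, div_le_one (by positivity)]
      linarith
    calc _ ≤ 1 * Real.exp (-((X2 t - ε / 4) * ((c : ℝ) + 2))) :=
          mul_le_mul_of_nonneg_right h4 (Real.exp_pos _).le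
      _ ≤ _ := by
          rw [one_mul, Real.exp_le_exp]
          have := mul_le_mul_of_nonneg_right (sub_le_sub_right hX2 (ε / 4)) hn0
          linarith
  have hl0 : 0 ≤ capVol c (t / Real.sqrt ((1 + t) / 2)) / capVol c t := by positivity
  have hlens := lensS hLe c t ht ht1 hpos
  have hle : capVol c (t / Real.sqrt ((1 + t) / 2)) / capVol c t ≤
      Real.exp (-((XS t - ε / 4) * ((c : ℝ) + 2))) := by
    refine le_trans ?_ hδ
    apply div_le_div_of_nonneg_right _ hpos.le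
    linarith
  obtain ⟨u1, u2⟩ := huni (S (c + 2)) (sig (c + 2)) (capF (c + 2) t) (capVol c t) (kap2 c t) _ _
    ((c : ℝ) + 2) ((le_max_left _ _).trans hcN) hG hκ0 (UpK_of hG hκ0 hsup) hδ0 hloc hl0 hlens
    hκ hδ hle
  refine ⟨u1, fun s hs hsN u v huv => u2 s hs hsN u v ?_⟩
  unfold capF
  rw [if_neg (not_lt.2 huv)]

end Pool.Agent.N549.DC
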