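import Pool.Agent.N549.HG.Main
import Pool.Agent.N549.AB.Cor5
import Pool.Agent.N549.AB.Stm2

/-!
# Decorrelation of the hard sphere gas on the torus (project HG, sixth round)
-/

set_option autoImplicit false

namespace Pool.Agent.N549.DC

open MeasureTheory Set Finset
open scoped ENNReal NNReal
open Pool.Agent.N549.HG
open Pool.Agent.N549.AB (Gas LocK LensK UpK Nr pr PZ PM ac gcor uniform_cor uniform_expU S_CANX
  S_LENST)

variable {n : ℕ} {r : ℝ}

theorem pr_tor (k : ℕ) : pr (vol n) (far n r) k = conf n r k := by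
  unfold pr
  rw [Pool.Agent.N364.HG.conf_eq n k r, ENNReal.toReal_ofReal (conf_nonneg k)]

theorem PZ_tor (lam : ℝ) : PZ (vol n) (far n r) lam = Zr n r lam := by
  unfold PZ Zr
  simp only [pr_tor]

theorem PM_tor (lam : ℝ) : PM (vol n) (far n r) lam = meanr n r lam := by
  unfold PM meanr
  rw [PZ_tor]
  simp only [pr_tor]

theorem Nr_far (x : Torus n) : Nr (far n r) x = {y | sqd y x < r ^ 2} := by
  ext y
  show far n r x y = 0 ↔ sqd y x < r ^ 2
  unfold far
  rw [Pool.Agent.N342.HG.sqd_comm x y]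
  split_ifs with h
  · exact ⟨fun h' => absurd h' one_ne_zero, fun h' => absurd h (not_le.2 h')⟩
  · exact ⟨fun _ => not_le.1 h, fun _ => rfl⟩

theorem gasT (hn : 1 ≤ n) (hr : 0 < r) (hr4 : r ≤ 1 / 4) :
    Gas (vol n) (far n r) (ballVol n r) where
  adm := far_adm n r
  zo := fun x y => by unfold far; split_ifs <;> simp
  pos := ballVol_pos hr
  vol := fun u => by
    rw [Nr_far]
    exact (Pool.Agent.N457.HG.Torus.torus n hn r hr (by linarith)).1 u
  hom := fun c u v => by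
    rw [Z_far, Z_far]

theorem upT (hn : 1 ≤ n) (hr : 0 < r) (hr4 : r ≤ 1 / 4) :
    UpK (vol n) (far n r) (ballVol n r) (kap n) := fun s hs => by
  rw [PZ_tor]
  exact pressure_le cont2 hn hr (by linarith) s hs

theorem locT (hn : 1 ≤ n) (hr : 0 < r) (hr4 : r ≤ 1 / 4) :
    LocK (vol n) (far n r) (2 * (Real.sqrt 3 / 2) ^ n) (ballVol n r) := by
  intro v T hT hTv
  rw [Nr_far] at hTv
  have := Pool.Agent.N342.HG.loc (fun n hn r hr hr2 =>
    Pool.Agent.N457.HG.Torus.torus n hn r hr hr2) n hn r hr hr4 v T hT hTv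
  simp only [Nr_far]
  exact this

theorem lensT (hL : S_LENST) (hn : 1 ≤ n) (hr : 0 < r) (hr4 : r ≤ 1 / 4) :
    LensK (vol n) (far n r) ((Real.sqrt 3 / 2) ^ n) (ballVol n r) := by
  intro u v huv
  have h : r ^ 2 ≤ sqd u v := by
    by_contra hcon
    unfold far at huv
    rw [if_neg hcon] at huv
    exact zero_ne_one huv
  rw [Nr_far, Nr_far]
  exact hL n hn r hr hr4 u v h

/-- the exponent -/
noncomputable def XT : ℝ := Real.log (2 / Real.sqrt 3)

theorem sqrt3_pow (n : ℕ) : (Real.sqrt 3 / 2) ^ n = Real.exp (-(XT * n)) := by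
  have h3 : 0 < Real.sqrt 3 / 2 := by positivity
  have h1 : XT = -Real.log (Real.sqrt 3 / 2) := by
    unfold XT
    rw [← Real.log_inv, inv_div]
  rw [h1, neg_mul, neg_neg, mul_comm, ← Real.log_pow, Real.exp_log (by positivity)]

theorem XT_lt : XT ≤ (1 - Real.log 2) / 2 := by
  have h3 : 0 < Real.sqrt 3 := by positivity
  have h1 : XT = Real.log 2 - Real.log 3 / 2 := by
    unfold XT
    rw [Real.log_div (by norm_num) h3.ne', Real.log_sqrt (by norm_num)]
  have h2 : 3 * Real.log 2 ≤ 1 + Real.log 3 := by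
    have e1 : 3 * Real.log 2 = Real.log 8 := by
      rw [show (8 : ℝ) = 2 ^ 3 by norm_num, Real.log_pow]
      norm_num
    have e2 : 1 + Real.log 3 = Real.log (Real.exp 1 * 3) := by
      rw [Real.log_mul (Real.exp_pos _).ne' (by norm_num), Real.log_exp]
    rw [e1, e2]
    apply Real.log_le_log (by norm_num)
    have := Real.exp_one_gt_d9
    linarith
  rw [h1]
  linarith

/-- **Decorrelation on the torus.** -/
theorem mainT (hX : S_CANX) (hL : S_LENST) (ε : ℝ) (hε : 0 < ε) :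
    ∃ (a : ℝ) (n₀ : ℕ), 0 < a ∧ ∀ n : ℕ, n₀ ≤ n → ∀ r : ℝ, 0 < r → r ≤ 1 / 4 →
      (∀ s : ℝ, 0 < s → s ≤ (XT - ε) * n →
        |ballVol n r * meanr n r (act n r s) - s| ≤ Real.exp (-(a * n)) * s ∧
        |ballVol n r * Real.log (Zr n r (act n r s)) - (s + s ^ 2 / 2)| ≤
          Real.exp (-(a * n)) * s) ∧
      (∀ k : ℕ, Real.exp (-(a * n)) ≤ k * ballVol n r → k * ballVol n r ≤ (XT - ε) * n →
        0 < conf n r k ∧ |Real.log (conf n r k) + k ^ 2 * ballVol n r / 2| ≤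
          Real.exp (-(a * n)) * (k ^ 2 * ballVol n r)) ∧
      (∀ s : ℝ, 0 < s → s ≤ (XT - ε) * n → ∀ u v : Torus n,
        1 - Real.exp (-(a * n)) ≤ gcor (vol n) (far n r) (act n r s) u v) ∧
      (∀ s : ℝ, 0 < s → s ≤ (XT / 3 - ε) * n → ∀ u v : Torus n, r ^ 2 ≤ sqd u v →
        gcor (vol n) (far n r) (act n r s) u v ≤ 1 + Real.exp (-(a * n))) := by
  obtain ⟨a₁, N₁, ha₁, h₁⟩ := uniform_expU hX XT ε (Real.log 2) hε (Real.log_pos (by norm_num))
  obtain ⟨a₂, N₂, ha₂, h₂⟩ := uniform_cor XT ε hε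
  obtain ⟨N₃, hN₃, hdec⟩ := Pool.Agent.N549.AB.decay 1 (ε / 4) (1 / Real.pi) (by positivity)
    (by positivity)
  obtain ⟨N₄, hN₄, hdec4⟩ := Pool.Agent.N549.AB.decay 0 (ε / 4) (1 / 2) (by positivity)
    (by positivity)
  simp only [abs_zero, zero_mul, add_zero, one_mul] at hdec4
  simp only [abs_one, one_mul] at hdec
  obtain ⟨n₀, hn₀⟩ := exists_nat_ge (max (max N₁ N₂) (max N₃ N₄))
  refine ⟨min a₁ a₂, max n₀ 1, lt_min ha₁ ha₂, fun n hn r hr hr4 => ?_⟩
  have hn1 : 1 ≤ n := (le_max_right _ _).trans hn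
  have hnn : max (max N₁ N₂) (max N₃ N₄) ≤ (n : ℝ) :=
    hn₀.trans (by exact_mod_cast (le_max_left _ _).trans hn)
  have g1 : N₁ ≤ n := ((le_max_left _ _).trans (le_max_left _ _)).trans hnn
  have g2 : N₂ ≤ n := ((le_max_right _ _).trans (le_max_left _ _)).trans hnn
  have g3 : N₃ ≤ n := ((le_max_left _ _).trans (le_max_right _ _)).trans hnn
  have g4 : N₄ ≤ n := ((le_max_right _ _).trans (le_max_right _ _)).trans hnn
  have hn0 : (0 : ℝ) ≤ n := Nat.cast_nonneg n
  have hG := gasT (n := n) (r := r) hn1 hr hr4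
  have hU := upT (n := n) (r := r) hn1 hr hr4
  have hLo := locT (n := n) (r := r) hn1 hr hr4
  have hLe := lensT hL (n := n) (r := r) hn1 hr hr4
  have hsq := sqrt3_pow n
  have hq0 : 0 ≤ (Real.sqrt 3 / 2) ^ n := by positivity
  have hD := ballVol_pos (n := n) hr
  -- the constants
  have c1 : kap n ≤ Real.exp (-((XT - ε / 4) * n)) := by
    unfold kap
    have e1 : Real.exp (-((1 - Real.log 2) / 2) * n) ≤ Real.exp (-(XT * n)) := by
      rw [Real.exp_le_exp]
      have := mul_le_mul_of_nonneg_right XT_lt hn0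
      linarith
    have e2 := hdec n g3
    have e3 : Real.exp (-((XT - ε / 4) * n)) = Real.exp (-(XT * n)) / Real.exp (-(ε / 4 * n)) := by
      rw [← Real.exp_sub]
      congr 1
      ring
    rw [e3, le_div_iff₀ (Real.exp_pos _)]
    have hpi := Real.pi_pos
    calc Real.pi * (n + 1) * Real.exp (-((1 - Real.log 2) / 2) * n) * Real.exp (-(ε / 4 * n))
        ≤ Real.pi * (n + 1) * Real.exp (-(XT * n)) * Real.exp (-(ε / 4 * n)) := by gcongr
      _ = Real.pi * ((1 + n) * Real.exp (-(ε / 4 * n))) * Real.exp (-(XT * n)) := by ring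
      _ ≤ Real.pi * (1 / Real.pi) * Real.exp (-(XT * n)) := by gcongr
      _ = Real.exp (-(XT * n)) := by
        rw [mul_one_div_cancel hpi.ne', one_mul]
  have c2 : 2 * (Real.sqrt 3 / 2) ^ n ≤ Real.exp (-((XT - ε / 4) * n)) := by
    have e2 := hdec4 n g4
    have e3 : Real.exp (-((XT - ε / 4) * n)) = Real.exp (-(XT * n)) / Real.exp (-(ε / 4 * n)) := by
      rw [← Real.exp_sub]
      congr 1
      ring
    rw [e3, hsq, le_div_iff₀ (Real.exp_pos _)]
    have := mul_le_mul_of_nonneg_left e2 (Real.exp_pos (-(XT * n))).le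
    linarith
  have c3 : (Real.sqrt 3 / 2) ^ n ≤ Real.exp (-((XT - ε / 4) * n)) := by linarith
  have c4 : ballVol n r ≤ Real.exp (-(Real.log 2 * n)) := by
    refine (ballVol_le hn1 hr hr4).trans (le_of_eq ?_)
    rw [show -(Real.log 2 * n) = n * Real.log (1 / 2) by
      rw [one_div, Real.log_inv]; ring, ← Real.log_pow, Real.exp_log (by positivity)]
  obtain ⟨u1, u2⟩ := h₁ (Torus n) (vol n) (far n r) (ballVol n r) (kap n) _ n g1 hG c4
    (kap_nonneg n) hU (by positivity) hLo c1 c2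
  obtain ⟨v1, v2⟩ := h₂ (Torus n) (vol n) (far n r) (ballVol n r) (kap n) _ _ n g2 hG
    (kap_nonneg n) hU (by positivity) hLo hq0 hLe c1 c2 c3
  have m1 : Real.exp (-(a₁ * n)) ≤ Real.exp (-(min a₁ a₂ * n)) := by
    rw [Real.exp_le_exp]
    have := mul_le_mul_of_nonneg_right (min_le_left a₁ a₂) hn0
    linarith
  have m2 : Real.exp (-(a₂ * n)) ≤ Real.exp (-(min a₁ a₂ * n)) := by
    rw [Real.exp_le_exp]
    have := mul_le_mul_of_nonneg_right (min_le_right a₁ a₂) hn0
    linarith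
  have hac : ∀ s, ac (ballVol n r) s = act n r s := fun s => rfl
  refine ⟨fun s hs hsN => ?_, fun k hk hkN => ?_, fun s hs hsN u v => ?_,
    fun s hs hsN u v huv => ?_⟩
  · obtain ⟨w1, w2⟩ := u1 s hs hsN
    rw [PM_tor, hac] at w1
    rw [PZ_tor, hac] at w2
    exact ⟨w1.trans (mul_le_mul_of_nonneg_right m1 hs.le),
      w2.trans (mul_le_mul_of_nonneg_right m1 hs.le)⟩
  · obtain ⟨w1, w2⟩ := u2 k (m1.trans hk) hkN
    rw [pr_tor] at w1 w2
    exact ⟨w1, w2.trans (mul_le_mul_of_nonneg_right m1 (by positivity))⟩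
  · have := v1 s hs hsN u v
    rw [hac] at this
    linarith
  · have := v2 s hs hsN u v (by unfold far; rw [if_pos huv])
    rw [hac] at this
    linarith

end Pool.Agent.N549.DC
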