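import Pool.Agent.N549.DC.Tor
import Pool.Agent.N549.AB.Cor8

/-!
# The pair distribution of the hard sphere gas on the torus (project HG, sixth round)
-/

set_option autoImplicit false

namespace Pool.Agent.N549.DC

open MeasureTheory Set Finset
open scoped ENNReal NNReal
open Pool.Agent.N549.HG
open Pool.Agent.N549.AB (Gas LocK LensK UpK Nr pr PZ PM PP ac gcor uniform_tv S_CANX
  S_LENST S_VAR S_MOM2)

/-- **The pair distribution on the torus.** -/
theorem tvT (hX : S_CANX) (hVar : S_VAR) (hM : S_MOM2) (hL : S_LENST) (ε : ℝ) (hε : 0 < ε) :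
    ∃ (a : ℝ) (n₀ : ℕ), 0 < a ∧ ∀ n : ℕ, n₀ ≤ n → ∀ r : ℝ, 0 < r → r ≤ 1 / 4 →
      ∀ s : ℝ, Real.exp (-(a * n)) ≤ s → s ≤ (XT - ε) * n →
      ∀ B : Set (Torus n × Torus n), MeasurableSet B → (∀ p ∈ B, far n r p.1 p.2 = 1) →
        |PP (vol n) (far n r) (act n r s) B / PZ (vol n) (far n r) (act n r s) -
          meanr n r (act n r s) ^ 2 * ((vol n).prod (vol n)).real B| ≤
          Real.exp (-(a * n)) * meanr n r (act n r s) ^ 2 := by
  obtain ⟨a₁, N₁, ha₁, h₁⟩ := uniform_tv hX hVar hM XT ε (Real.log 2) hε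
    (Real.log_pos (by norm_num))
  obtain ⟨N₃, hN₃, hdec⟩ := Pool.Agent.N549.AB.decay 1 (ε / 8) (1 / Real.pi) (by positivity)
    (by positivity)
  obtain ⟨N₄, hN₄, hdec4⟩ := Pool.Agent.N549.AB.decay 0 (ε / 8) (1 / 2) (by positivity)
    (by positivity)
  simp only [abs_zero, zero_mul, add_zero, one_mul] at hdec4
  simp only [abs_one, one_mul] at hdec
  obtain ⟨n₀, hn₀⟩ := exists_nat_ge (max N₁ (max N₃ N₄))
  refine ⟨a₁, max n₀ 1, ha₁, fun n hn r hr hr4 s hs hsN B hB hBr => ?_⟩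
  have hn1 : 1 ≤ n := (le_max_right _ _).trans hn
  have hnn : max N₁ (max N₃ N₄) ≤ (n : ℝ) :=
    hn₀.trans (by exact_mod_cast (le_max_left _ _).trans hn)
  have g1 : N₁ ≤ n := (le_max_left _ _).trans hnn
  have g3 : N₃ ≤ n := ((le_max_left _ _).trans (le_max_right _ _)).trans hnn
  have g4 : N₄ ≤ n := ((le_max_right _ _).trans (le_max_right _ _)).trans hnn
  have hn0 : (0 : ℝ) ≤ n := Nat.cast_nonneg n
  have hG := gasT (n := n) (r := r) hn1 hr hr4
  have hU := upT (n := n) (r := r) hn1 hr hr4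
  have hLo := locT (n := n) (r := r) hn1 hr hr4
  have hLe := lensT hL (n := n) (r := r) hn1 hr hr4
  have hsq := sqrt3_pow n
  have hq0 : 0 ≤ (Real.sqrt 3 / 2) ^ n := by positivity
  have hD := ballVol_pos (n := n) hr
  -- the constants
  have c1 : kap n ≤ Real.exp (-((XT - ε / 8) * n)) := by
    unfold kap
    have e1 : Real.exp (-((1 - Real.log 2) / 2) * n) ≤ Real.exp (-(XT * n)) := by
      rw [Real.exp_le_exp]
      have := mul_le_mul_of_nonneg_right XT_lt hn0
      linarith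
    have e2 := hdec n g3
    have e3 : Real.exp (-((XT - ε / 8) * n)) = Real.exp (-(XT * n)) / Real.exp (-(ε / 8 * n)) := by
      rw [← Real.exp_sub]
      congr 1
      ring
    rw [e3, le_div_iff₀ (Real.exp_pos _)]
    have hpi := Real.pi_pos
    calc Real.pi * (n + 1) * Real.exp (-((1 - Real.log 2) / 2) * n) * Real.exp (-(ε / 8 * n))
        ≤ Real.pi * (n + 1) * Real.exp (-(XT * n)) * Real.exp (-(ε / 8 * n)) := by gcongr
      _ = Real.pi * ((1 + n) * Real.exp (-(ε / 8 * n))) * Real.exp (-(XT * n)) := by ring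
      _ ≤ Real.pi * (1 / Real.pi) * Real.exp (-(XT * n)) := by gcongr
      _ = Real.exp (-(XT * n)) := by
        rw [mul_one_div_cancel hpi.ne', one_mul]
  have c2 : 2 * (Real.sqrt 3 / 2) ^ n ≤ Real.exp (-((XT - ε / 8) * n)) := by
    have e2 := hdec4 n g4
    have e3 : Real.exp (-((XT - ε / 8) * n)) = Real.exp (-(XT * n)) / Real.exp (-(ε / 8 * n)) := by
      rw [← Real.exp_sub]
      congr 1
      ring
    rw [e3, hsq, le_div_iff₀ (Real.exp_pos _)]
    have := mul_le_mul_of_nonneg_left e2 (Real.exp_pos (-(XT * n))).le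
    linarith
  have c3 : (Real.sqrt 3 / 2) ^ n ≤ Real.exp (-((XT - ε / 8) * n)) := by linarith
  have c4 : ballVol n r ≤ Real.exp (-(Real.log 2 * n)) := by
    refine (ballVol_le hn1 hr hr4).trans (le_of_eq ?_)
    rw [show -(Real.log 2 * n) = n * Real.log (1 / 2) by
      rw [one_div, Real.log_inv]; ring, ← Real.log_pow, Real.exp_log (by positivity)]
  have key := h₁ (Torus n) (vol n) (far n r) (ballVol n r) (kap n) _ _ n g1 hG c4
    (kap_nonneg n) hU (by positivity) hLo hq0 hLe c1 c2 c3 s hs hsN B hB hBr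
  rw [PM_tor] at key
  exact key

end Pool.Agent.N549.DC
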